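import Mathlib

/-!
The probability that at least one of `n` independent simple random walks is lonely is not monotone
in time.
-/

open Finset

namespace Pool.Agent.Results.MP_ca7dc8_pr.NotMonotone

/-- The unit step of `ℤ^d` coded by a coordinate and a sign. -/
def stepVec {d : ℕ} (s : Fin d × Bool) : Fin d → ℤ :=
  fun k => if k = s.1 then (if s.2 then 1 else -1) else 0

/-- The position of the walker with step sequence `w` after its `t` steps. -/
def position {d t : ℕ} (w : Fin t → Fin d × Bool) : Fin d → ℤ := ∑ k, stepVec (w k)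

/-- At least one of the `n` walkers is lonely at time `t`; walker `i` has steps `ω i`. -/
def HasLonely {d n t : ℕ} (ω : Fin n → Fin t → Fin d × Bool) : Prop :=
  ∃ i, ∀ j, j ≠ i → position (ω j) ≠ position (ω i)

/-- The probability that at least one of `n` independent simple random walks on `ℤ^d` is lonely at
time `t`: the `(2d)^(tn)` arrays of steps are equally likely. -/
noncomputable def lonelyProb (d n t : ℕ) : ℝ :=
  (Nat.card {ω : Fin n → Fin t → Fin d × Bool // HasLonely ω} : ℝ) /
    (Nat.card (Fin n → Fin t → Fin d × Bool) : ℝ)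

section counting

variable {ι W : Type*} [Fintype ι] [DecidableEq ι] [Fintype W] [DecidableEq W]

/-- Number of functions `ω : ι → W` with exactly one `i` such that `ω i ∈ A`. -/
lemma card_exactly_one (A : Finset W) :
    (univ.filter (fun ω : ι → W => ∃ i, ω i ∈ A ∧ ∀ j, j ≠ i → ω j ∉ A)).card =
      Fintype.card ι * (A.card * (Aᶜ).card ^ (Fintype.card ι - 1)) := by
  have h1 : (univ.filter (fun ω : ι → W => ∃ i, ω i ∈ A ∧ ∀ j, j ≠ i → ω j ∉ A)) =
      univ.biUnion (fun i : ι => Fintype.piFinset (fun j => if j = i then A else Aᶜ)) := by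
    ext ω
    simp only [mem_filter, mem_univ, true_and, mem_biUnion, Fintype.mem_piFinset]
    constructor
    · rintro ⟨i, h1, h2⟩
      refine ⟨i, fun j => ?_⟩
      split_ifs with h
      · rw [h]; exact h1
      · rw [mem_compl]; exact h2 j h
    · rintro ⟨i, h⟩
      refine ⟨i, by simpa using h i, fun j hj => ?_⟩
      have := h j
      rw [if_neg hj, mem_compl] at this
      exact this
  rw [h1, card_biUnion]
  · have : ∀ i : ι, (Fintype.piFinset (fun j => if j = i then A else Aᶜ)).card =
        A.card * (Aᶜ).card ^ (Fintype.card ι - 1) := by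
      intro i
      rw [Fintype.card_piFinset, ← Finset.mul_prod_erase univ _ (mem_univ i), if_pos rfl]
      congr 1
      rw [Finset.prod_congr rfl (g := fun _ => (Aᶜ).card)]
      · rw [prod_const, card_erase_of_mem (mem_univ i), card_univ]
      · intro j hj
        rw [if_neg (ne_of_mem_erase hj)]
    simp only [this, sum_const, card_univ, smul_eq_mul]
  · intro i _ i' _ hii'
    rw [Function.onFun, disjoint_left]
    intro ω h1 h2
    rw [Fintype.mem_piFinset] at h1 h2
    have h3 := h1 i
    have h4 := h2 i
    rw [if_pos rfl] at h3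
    rw [if_neg hii', mem_compl] at h4
    exact h4 h3

/-- Number of functions `ω : ι → W` with exactly one `i` such that `ω i ∈ A` and exactly one `i'`
such that `ω i' ∈ B`, for disjoint `A`, `B`. -/
lemma card_exactly_one_two {A B : Finset W} (hAB : Disjoint A B) :
    (univ.filter (fun ω : ι → W => (∃ i, ω i ∈ A ∧ ∀ j, j ≠ i → ω j ∉ A) ∧
      (∃ i, ω i ∈ B ∧ ∀ j, j ≠ i → ω j ∉ B))).card =
      (Fintype.card ι * (Fintype.card ι - 1)) *
        (A.card * B.card * ((A ∪ B)ᶜ).card ^ (Fintype.card ι - 2)) := by
  have h1 : (univ.filter (fun ω : ι → W => (∃ i, ω i ∈ A ∧ ∀ j, j ≠ i → ω j ∉ A) ∧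
      (∃ i, ω i ∈ B ∧ ∀ j, j ≠ i → ω j ∉ B))) =
      (univ.offDiag (α := ι)).biUnion (fun p : ι × ι =>
        Fintype.piFinset (fun j => if j = p.1 then A else if j = p.2 then B else (A ∪ B)ᶜ)) := by
    ext ω
    simp only [mem_filter, mem_univ, true_and, mem_biUnion, Fintype.mem_piFinset, mem_offDiag,
      Prod.exists]
    constructor
    · rintro ⟨⟨i, h1, h2⟩, ⟨i', h3, h4⟩⟩
      have hne : i ≠ i' := by
        rintro rfl
        exact (disjoint_left.mp hAB) h1 h3
      refine ⟨i, i', hne, fun j => ?_⟩
      split_ifs with h h'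
      · rw [h]; exact h1
      · rw [h']; exact h3
      · rw [mem_compl, mem_union, not_or]
        exact ⟨h2 j h, h4 j h'⟩
    · rintro ⟨i, i', hne, h⟩
      have hi := h i
      rw [if_pos rfl] at hi
      have hi' := h i'
      rw [if_neg hne.symm, if_pos rfl] at hi'
      refine ⟨⟨i, hi, fun j hj => ?_⟩, ⟨i', hi', fun j hj => ?_⟩⟩
      · by_cases hj' : j = i'
        · rw [hj']
          exact fun hh => (disjoint_left.mp hAB) hh hi'
        · have := h j
          rw [if_neg hj, if_neg hj', mem_compl, mem_union, not_or] at this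
          exact this.1
      · by_cases hj' : j = i
        · rw [hj']
          exact fun hh => (disjoint_left.mp hAB) hi hh
        · have := h j
          rw [if_neg hj', if_neg hj, mem_compl, mem_union, not_or] at this
          exact this.2
  rw [h1, card_biUnion]
  · have : ∀ p ∈ (univ.offDiag (α := ι)),
        (Fintype.piFinset (fun j => if j = p.1 then A else if j = p.2 then B else (A ∪ B)ᶜ)).card =
        A.card * B.card * ((A ∪ B)ᶜ).card ^ (Fintype.card ι - 2) := by
      rintro ⟨i, i'⟩ hp
      have hne : i ≠ i' := by simpa using hp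
      rw [Fintype.card_piFinset, ← Finset.mul_prod_erase univ _ (mem_univ i), if_pos rfl,
        ← Finset.mul_prod_erase (univ.erase i) _ (a := i') (by simp [hne.symm])]
      rw [if_neg hne.symm, if_pos rfl, mul_assoc]
      congr 2
      rw [Finset.prod_congr rfl (g := fun _ => ((A ∪ B)ᶜ).card)]
      · rw [prod_const, card_erase_of_mem (by simp [hne.symm]), card_erase_of_mem (mem_univ i),
          card_univ]
        congr 1
      · intro j hj
        have h1 := ne_of_mem_erase hj
        have h2 := ne_of_mem_erase (mem_of_mem_erase hj)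
        simp only
        rw [if_neg h2, if_neg h1]
    rw [sum_congr rfl this, sum_const, smul_eq_mul, offDiag_card, card_univ]
    congr 1
    rw [Nat.mul_sub, mul_one]
  · intro p hp q hq hpq
    rw [Function.onFun, disjoint_left]
    intro ω h1 h2
    rw [Fintype.mem_piFinset] at h1 h2
    apply hpq
    have hp' : p.1 ≠ p.2 := by simpa using hp
    have hq' : q.1 ≠ q.2 := by simpa using hq
    have e1 := h1 p.1
    have e2 := h1 p.2
    rw [if_pos rfl] at e1
    rw [if_neg hp'.symm, if_pos rfl] at e2
    have f1 := h2 p.1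
    have f2 := h2 p.2
    ext
    · by_contra hne
      rw [if_neg hne] at f1
      split_ifs at f1
      · exact (disjoint_left.mp hAB) e1 f1
      · rw [mem_compl, mem_union] at f1
        exact f1 (Or.inl e1)
    · by_contra hne
      rw [if_neg hne] at f2
      split_ifs at f2
      · exact (disjoint_left.mp hAB) f2 e2
      · rw [mem_compl, mem_union] at f2
        exact f2 (Or.inr e2)

end counting

section sites

variable {t : ℕ}

/-- The number of steps in the positive direction, in dimension one. -/
def ups (w : Fin t → Fin 1 × Bool) : ℕ := (univ.filter (fun k => (w k).2 = true)).card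

lemma position_eq (w : Fin t → Fin 1 × Bool) :
    position w = fun _ => 2 * (ups w : ℤ) - t := by
  funext a
  have ha : ∀ k, a = (w k).1 := fun k => Subsingleton.elim _ _
  unfold position stepVec ups
  rw [Finset.sum_apply]
  rw [Finset.sum_congr rfl (g := fun k => 2 * (if (w k).2 = true then (1 : ℤ) else 0) - 1)]
  · rw [Finset.sum_sub_distrib, ← Finset.mul_sum, Finset.sum_boole]
    simp
  · intro k _
    rw [if_pos (ha k)]
    split_ifs <;> norm_num

lemma position_eq_iff (w w' : Fin t → Fin 1 × Bool) :
    position w = position w' ↔ ups w = ups w' := by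
  rw [position_eq, position_eq]
  constructor
  · intro h
    have := congrFun h 0
    omega
  · intro h
    rw [h]

lemma ups_le (w : Fin t → Fin 1 × Bool) : ups w ≤ t := by
  unfold ups
  exact (card_le_univ _).trans (by simp)

/-- The step sequences with `k` steps in the positive direction. -/
def site (t k : ℕ) : Finset (Fin t → Fin 1 × Bool) := univ.filter (fun w => ups w = k)

lemma card_site (k : ℕ) : (site t k).card = t.choose k := by
  have : (powersetCard k (univ : Finset (Fin t))).card = t.choose k := by
    rw [card_powersetCard, card_univ, Fintype.card_fin]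
  rw [← this]
  apply card_bij (fun w _ => univ.filter (fun k => (w k).2 = true))
  · intro w hw
    rw [mem_powersetCard]
    refine ⟨subset_univ _, ?_⟩
    have : ups w = k := by simpa [site] using hw
    exact this
  · intro w _ w' _ h
    funext k
    have h2 : k ∈ univ.filter (fun k => (w k).2 = true) ↔
        k ∈ univ.filter (fun k => (w' k).2 = true) := by rw [h]
    simp only [mem_filter, mem_univ, true_and] at h2
    ext1
    · exact Subsingleton.elim _ _
    · rcases hb : (w k).2 with _ | _ <;> rcases hb' : (w' k).2 with _ | _ <;> simp_all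
  · intro S hS
    rw [mem_powersetCard] at hS
    refine ⟨fun k => (0, decide (k ∈ S)), ?_, ?_⟩
    · have : ups (fun j : Fin t => ((0 : Fin 1), decide (j ∈ S))) = k := by
        unfold ups
        simpa using hS.2
      simpa [site] using this
    · ext k
      simp

lemma card_site_compl (k : ℕ) : ((site t k)ᶜ).card = 2 ^ t - t.choose k := by
  rw [card_compl, card_site]
  simp

lemma disjoint_site {k l : ℕ} (h : k ≠ l) : Disjoint (site t k) (site t l) := by
  rw [disjoint_left]
  intro w hw hw'
  simp only [site, mem_filter, mem_univ, true_and] at hw hw'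
  exact h (hw.symm.trans hw')

/-- The event that exactly one walker has made `k` positive steps. -/
def ev (n t k : ℕ) : Finset (Fin n → Fin t → Fin 1 × Bool) :=
  univ.filter (fun ω => ∃ i, ω i ∈ site t k ∧ ∀ j, j ≠ i → ω j ∉ site t k)

lemma hasLonely_iff {n : ℕ} (ω : Fin n → Fin t → Fin 1 × Bool) :
    HasLonely ω ↔ ∃ k ∈ range (t + 1), ω ∈ ev n t k := by
  unfold HasLonely ev
  simp only [mem_range, mem_filter, mem_univ, true_and]
  constructor
  · rintro ⟨i, hi⟩
    refine ⟨ups (ω i), by have := ups_le (ω i); omega, i, by simp [site], fun j hj => ?_⟩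
    intro h
    apply hi j hj
    rw [position_eq_iff]
    simpa [site] using h
  · rintro ⟨k, _, i, hi, h⟩
    refine ⟨i, fun j hj hh => h j hj ?_⟩
    rw [position_eq_iff] at hh
    simp only [site, mem_filter, mem_univ, true_and] at hi ⊢
    rw [hh, hi]

lemma card_ev (n k : ℕ) : (ev n t k).card =
    n * (t.choose k * (2 ^ t - t.choose k) ^ (n - 1)) := by
  have h := card_exactly_one (ι := Fin n) (site t k)
  rw [card_site, card_site_compl, Fintype.card_fin] at h
  rw [← h]
  unfold ev
  congr

lemma card_ev_inter (n : ℕ) (ht : t ≠ 0) : (ev n t 0 ∩ ev n t t).card =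
    (n * (n - 1)) * (2 ^ t - 2) ^ (n - 2) := by
  have h := card_exactly_one_two (ι := Fin n) (disjoint_site (t := t) ht.symm)
  rw [card_site, card_site, card_compl, card_union_of_disjoint (disjoint_site ht.symm), card_site,
    card_site, Fintype.card_fin] at h
  have h' : n * (n - 1) * (2 ^ t - 2) ^ (n - 2) = n * (n - 1) *
      (t.choose 0 * t.choose t *
        (Fintype.card (Fin t → Fin 1 × Bool) - (t.choose 0 + t.choose t)) ^ (n - 2)) := by
    simp
  rw [h', ← h]
  unfold ev
  rw [← filter_and]
  congr

lemma natCard_all (n : ℕ) : Nat.card (Fin n → Fin t → Fin 1 × Bool) = 2 ^ (t * n) := by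
  rw [Nat.card_eq_fintype_card]
  simp [pow_mul]

lemma natCard_lonely (n : ℕ) :
    Nat.card {ω : Fin n → Fin t → Fin 1 × Bool // HasLonely ω} =
      ((range (t + 1)).biUnion (fun k => ev n t k)).card := by
  classical
  rw [Nat.card_eq_fintype_card, Fintype.card_subtype]
  congr 1
  ext ω
  simp only [mem_filter, mem_univ, true_and, mem_biUnion]
  exact hasLonely_iff ω

lemma lower (n : ℕ) (ht : t ≠ 0) :
    2 * (n * (2 ^ t - 1) ^ (n - 1)) ≤
      Nat.card {ω : Fin n → Fin t → Fin 1 × Bool // HasLonely ω} +
        (n * (n - 1)) * (2 ^ t - 2) ^ (n - 2) := by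
  classical
  rw [natCard_lonely, ← card_ev_inter n ht]
  have h1 : (ev n t 0 ∪ ev n t t) ⊆ (range (t + 1)).biUnion (fun k => ev n t k) := by
    apply union_subset
    · exact subset_biUnion_of_mem (fun k => ev n t k) (by simp)
    · exact subset_biUnion_of_mem (fun k => ev n t k) (by simp)
  have h2 := card_union_add_card_inter (ev n t 0) (ev n t t)
  have h3 := card_le_card h1
  rw [card_ev, card_ev] at h2
  simp only [Nat.choose_zero_right, Nat.choose_self, one_mul] at h2
  omega

lemma upper (n : ℕ) (ht : t ≠ 0) :
    Nat.card {ω : Fin n → Fin t → Fin 1 × Bool // HasLonely ω} +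
        (n * (n - 1)) * (2 ^ t - 2) ^ (n - 2) ≤
      ∑ k ∈ range (t + 1), n * (t.choose k * (2 ^ t - t.choose k) ^ (n - 1)) := by
  classical
  rw [natCard_lonely, ← card_ev_inter n ht]
  have h1 : (range (t + 1)).biUnion (fun k => ev n t k) ⊆
      (ev n t 0 ∪ ev n t t) ∪ ((range (t + 1)).erase 0 |>.erase t).biUnion (fun k => ev n t k) := by
    intro ω hω
    rw [mem_biUnion] at hω
    obtain ⟨k, hk, hω⟩ := hω
    rw [mem_union, mem_union, mem_biUnion]
    by_cases h0 : k = 0
    · left; left; rw [← h0]; exact hω
    · by_cases h0' : k = t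
      · left; right; subst h0'; exact hω
      · right
        exact ⟨k, by simp [h0, h0', mem_range.mp hk], hω⟩
  have h2 := card_union_add_card_inter (ev n t 0) (ev n t t)
  have h3 := card_le_card h1
  have h4 := card_union_le (ev n t 0 ∪ ev n t t)
    (((range (t + 1)).erase 0 |>.erase t).biUnion (fun k => ev n t k))
  have h5 : (((range (t + 1)).erase 0 |>.erase t).biUnion (fun k => ev n t k)).card ≤
      ∑ k ∈ ((range (t + 1)).erase 0 |>.erase t), (ev n t k).card := card_biUnion_le
  have h6 : ∑ k ∈ range (t + 1), n * (t.choose k * (2 ^ t - t.choose k) ^ (n - 1)) =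
      (ev n t 0).card + ((ev n t t).card +
        ∑ k ∈ ((range (t + 1)).erase 0 |>.erase t), (ev n t k).card) := by
    have e1 := Finset.add_sum_erase (range (t + 1)) (fun k => (ev n t k).card) (a := 0) (by simp)
    have e2 := Finset.add_sum_erase ((range (t + 1)).erase 0) (fun k => (ev n t k).card) (a := t)
      (by simp [ht])
    rw [e2, e1]
    exact sum_congr rfl fun k _ => (card_ev n k).symm
  omega

end sites

set_option exponentiation.threshold 20000 in
lemma numerics :
    (∑ k ∈ range (10 + 1), 512 * (Nat.choose 10 k * (2 ^ 10 - Nat.choose 10 k) ^ (512 - 1)))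
        + ((512 * (512 - 1)) * (2 ^ 9 - 2) ^ (512 - 2)) * 2 ^ 512 <
        (2 * (512 * (2 ^ 9 - 1) ^ (512 - 1))) * 2 ^ 512 +
          (512 * (512 - 1)) * (2 ^ 10 - 2) ^ (512 - 2) := by
  norm_num [Finset.sum_range_succ, Nat.choose]

/-- With `n = 512` walkers on `ℤ`, the probability that at least one walker is lonely is strictly
smaller at time `10` than at time `9`. -/
theorem result : lonelyProb 1 512 10 < lonelyProb 1 512 9 := by
  have hlow := lower (t := 9) 512 (by norm_num)
  have hup := upper (t := 10) 512 (by norm_num)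
  have h1 := numerics
  unfold lonelyProb
  rw [natCard_all, natCard_all]
  set L := Nat.card {ω : Fin 512 → Fin 9 → Fin 1 × Bool // HasLonely ω} with hL
  set U := Nat.card {ω : Fin 512 → Fin 10 → Fin 1 × Bool // HasLonely ω} with hU
  have key : U < L * 2 ^ 512 := by
    have h2 := Nat.mul_le_mul_right (2 ^ 512) hlow
    rw [add_mul] at h2
    generalize (∑ k ∈ range (10 + 1),
      512 * (Nat.choose 10 k * (2 ^ 10 - Nat.choose 10 k) ^ (512 - 1))) = A at h1 hup
    generalize ((512 * (512 - 1)) * (2 ^ 9 - 2) ^ (512 - 2)) * 2 ^ 512 = B at h1 h2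
    generalize (2 * (512 * (2 ^ 9 - 1) ^ (512 - 1))) * 2 ^ 512 = C at h1 h2
    generalize (512 * (512 - 1)) * (2 ^ 10 - 2) ^ (512 - 2) = D at h1 hup
    generalize L * 2 ^ 512 = E at h2 ⊢
    omega
  have hk : (U : ℝ) < L * 2 ^ 512 := by exact_mod_cast key
  have e1 : ((2 ^ (10 * 512) : ℕ) : ℝ) = 2 ^ 512 * ((2 ^ (9 * 512) : ℕ) : ℝ) := by
    rw [Nat.cast_pow, Nat.cast_pow, Nat.cast_ofNat, ← pow_add]
  have e2 : (0 : ℝ) < ((2 ^ (9 * 512) : ℕ) : ℝ) := by
    exact Nat.cast_pos.mpr (Nat.pow_pos (by norm_num))
  rw [e1]
  generalize ((2 ^ (9 * 512) : ℕ) : ℝ) = Q at e2 ⊢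
  rw [div_lt_div_iff₀ (mul_pos (pow_pos (by norm_num) _) e2) e2, ← mul_assoc]
  exact mul_lt_mul_of_pos_right hk e2

end Pool.Agent.Results.MP_ca7dc8_pr.NotMonotone
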